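import Mathlib
import Pool.Agent.R603.AQ.Final

set_option autoImplicit false

/-!
# MP_88d3f6_lc, Q1: automatic homeomorphicity of the polymorphism clone of `(ℚ; <)`

Every clone isomorphism from `Pol(ℚ; <)` onto a closed clone on a countably infinite set is a
homeomorphism.

Idea of the proof. (1) The self-embeddings of `(ℚ; <)` act on the base set of the target. A tree of
`2 ^ ℵ₀` embeddings, any two of which agree on a finite set and are separated off it, together with
a chain of comparisons of monotone maps, shows that some embedding `u` is such that the action of
`π ∘ u` on a given point depends only on the values of `π` on a finite set; closedness of the
target and amalgamation of embeddings give a limit point of the inverses of `u`, which commutes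
with everything, hence is the identity, and every point has a finite support; minimal supports are
unique. (2) The graph of the isomorphism is closed. (3) Boundedness: for a finite `F ⊆ ℚ` there are
embeddings `β₁, β₂` fixing `F` such that `β₁ x < β₂ x'` unless some `f ∈ F` satisfies
`x' ≤ f ≤ x`; along an ultrafilter the relative position of the cuts determined by `F` is constant,
so that one operation `P` can be glued to all members of the family, which bounds the supports of
the values. (4) The same for the inverse, by substituting translations.
-/

namespace Pool.Agent.Results.MP_88d3f6_lc.AutoHomeoQ

open Pool.Agent.R603.AQ.Clones

/-- The polymorphism clone of `(ℚ; <)` has automatic homeomorphicity. -/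
theorem result : AutomaticHomeomorphicity PolQ := automatic

end Pool.Agent.Results.MP_88d3f6_lc.AutoHomeoQ
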